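import Pool.Agent.G02.Stmts

/-!
# Squad G02, row SCL: scaling
-/

set_option autoImplicit false

namespace Pool.Agent.G02.H52

open Pool.Agent.G02

theorem scl : SclStmt := by
  intro a b m hm
  constructor
  · intro h x y hxy
    have h1 := h (m ^ 2 * x) (m ^ 3 * y) (by linear_combination m ^ 6 * hxy)
    exact (mul_eq_zero.mp h1).resolve_left (pow_ne_zero 3 hm)
  · intro h x y hxy
    have h1 := h (x / m ^ 2) (y / m ^ 3) (by
      field_simp
      linear_combination hxy)
    rcases div_eq_zero_iff.mp h1 with h2 | h2
    · exact h2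
    · exact absurd h2 (pow_ne_zero 3 hm)

end Pool.Agent.G02.H52
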